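import Pool.Agent.H71.DP.E

/-!
# dp-rank of strictly invariant types

`M` is the monster model, `p` a complete type over `M` in a finite tuple of variables, `A` a set
over which `M` is saturated. If for all finite tuples `c` of `M` and `a ⊨ p ↾ Ac` the type
`tp(c/Aa)` extends to an `A`-invariant global type (`CoInvariant p A`), then ict-patterns of every
depth exist in `p` exactly when they exist in `p ↾ A`: `dp-rk(p) = dp-rk(p ↾ A)`. There is no
hypothesis on the theory. The definitions are in `Pool.Agent.H71.DP.Defs`.

For a definable type `p` over a model `A` the types `tp(c/Aa)` are finitely satisfiable in `A`. In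
NIP theories and for models `A` the types of the theorem are the strictly non-forking types.
-/

set_option autoImplicit false

open FirstOrder FirstOrder.Language

namespace Pool.Agent.Results.MP_8d5219_lc.StrictlyInvariantTypes

open Pool.Agent.H71.DP

/-- dp-rank of `p` is equal to the dp-rank of `p ↾ A`. -/
theorem result {L : FirstOrder.Language.{0, 0}} {M : Type} [L.Structure M] [Nonempty M]
    {A : Set M} (hM : SaturatedOver L A) {X : Type} [Finite X] (p : GType L M X)
    (hp : CoInvariant p A) :
    ∀ K : Type, HasPattern K (p.over A) ↔ HasPattern K p.S :=
  fun _ => ⟨coinv hM p hp, pat_mono (over_sub p A)⟩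

end Pool.Agent.Results.MP_8d5219_lc.StrictlyInvariantTypes
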